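import Pool.Agent.Helper37.SN.Stmts

set_option autoImplicit false

namespace Pool.Agent.Helper37.SN

open MeasureTheory Finset

theorem ptw_z1 (k : ℕ) : (2 : ℝ) ^ (-(k : ℤ)) = ((2 : ℝ) ^ k)⁻¹ := by
  rw [zpow_neg, zpow_natCast]

theorem ptw_z2 (k : ℕ) : (2 : ℝ) ^ (-((k : ℤ) - 1)) = 2 * ((2 : ℝ) ^ k)⁻¹ := by
  rw [neg_sub, sub_eq_add_neg, zpow_add₀ (by norm_num), zpow_one, ptw_z1]

/-- scaled coordinates -/
theorem ptw_in (hREP : ST_REP) {n ρ s : ℕ} (hs : s ≤ n) {x z : P2} (h : Bx n ρ s x z) :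
    |(2 : ℝ) ^ (s + ρ) * rep (z.1 - x.1)| ≤ 1 ∧ |(2 : ℝ) ^ (n - s + ρ) * rep (z.2 - x.2)| ≤ 1 := by
  obtain ⟨h1, h2⟩ := h
  have e1 : (s : ℤ) + (ρ : ℤ) = ((s + ρ : ℕ) : ℤ) := by push_cast; ring
  have e2 : (n : ℤ) - s + (ρ : ℤ) = ((n - s + ρ : ℕ) : ℤ) := by
    rw [Nat.cast_add, Nat.cast_sub hs]
  rw [e1, ptw_z1, ← hREP.2.1] at h1
  rw [e2, ptw_z1, ← hREP.2.1] at h2
  constructor
  · rw [abs_mul, abs_of_pos (by positivity)]
    calc (2 : ℝ) ^ (s + ρ) * |rep (z.1 - x.1)| ≤ 2 ^ (s + ρ) * (2 ^ (s + ρ))⁻¹ := by gcongr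
      _ = 1 := mul_inv_cancel₀ (by positivity)
  · rw [abs_mul, abs_of_pos (by positivity)]
    calc (2 : ℝ) ^ (n - s + ρ) * |rep (z.2 - x.2)| ≤ 2 ^ (n - s + ρ) * (2 ^ (n - s + ρ))⁻¹ := by
          gcongr
      _ = 1 := mul_inv_cancel₀ (by positivity)

theorem ptw_out (hREP : ST_REP) {n ρ s : ℕ} (hs : s ≤ n) {x z : P2}
    (h : ¬ Bx n ((ρ : ℤ) - 1) s x z) :
    2 ≤ |(2 : ℝ) ^ (s + ρ) * rep (z.1 - x.1)| ∨ 2 ≤ |(2 : ℝ) ^ (n - s + ρ) * rep (z.2 - x.2)| := by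
  have e1 : (s : ℤ) + ((ρ : ℤ) - 1) = ((s + ρ : ℕ) : ℤ) - 1 := by push_cast; ring
  have e2 : (n : ℤ) - s + ((ρ : ℤ) - 1) = ((n - s + ρ : ℕ) : ℤ) - 1 := by
    rw [Nat.cast_add, Nat.cast_sub hs]; ring
  unfold Bx at h
  rw [e1, e2, ptw_z2, ptw_z2, ← hREP.2.1, ← hREP.2.1, not_and_or, not_le, not_le] at h
  have key : ∀ (k : ℕ) (t : ℝ), 2 * ((2 : ℝ) ^ k)⁻¹ < |t| → 2 ≤ |(2 : ℝ) ^ k * t| := by
    intro k t ht
    rw [abs_mul, abs_of_pos (by positivity)]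
    calc (2 : ℝ) = 2 ^ k * (2 * (2 ^ k)⁻¹) := by field_simp
      _ ≤ 2 ^ k * |t| := by gcongr
  rcases h with h | h
  · exact Or.inl (key _ _ h)
  · exact Or.inr (key _ _ h)

/-- the bumps vanish outside the larger box -/
theorem ptw_tb0 (hREP : ST_REP) (hGG : ST_GG) {n ρ s : ℕ} (hs : s ≤ n) {x z : P2}
    (h : ¬ Bx n ((ρ : ℤ) - 1) s x z) (V W : ℝ → ℝ) :
    tb (fun y => V y * gg y) (fun y => W y * gg y) n ρ s x z = 0 := by
  rcases ptw_out hREP hs h with h | h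
  · show V _ * gg ((2 : ℝ) ^ (s + ρ) * rep (z.1 - x.1)) * (W _ * gg _) = 0
    rw [hGG.2.2.1 _ h]; ring
  · show V _ * gg _ * (W _ * gg ((2 : ℝ) ^ (n - s + ρ) * rep (z.2 - x.2))) = 0
    rw [hGG.2.2.1 _ h]; ring

theorem ptw_tb1 (hREP : ST_REP) (hGG : ST_GG) {n ρ s : ℕ} (hs : s ≤ n) {x z : P2}
    (h : Bx n ρ s x z) (V W : ℝ → ℝ) :
    tb (fun y => V y * gg y) (fun y => W y * gg y) n ρ s x z =
      V ((2 : ℝ) ^ (s + ρ) * rep (z.1 - x.1)) * W ((2 : ℝ) ^ (n - s + ρ) * rep (z.2 - x.2)) := by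
  obtain ⟨h1, h2⟩ := ptw_in hREP hs h
  show V _ * gg ((2 : ℝ) ^ (s + ρ) * rep (z.1 - x.1)) *
    (W _ * gg ((2 : ℝ) ^ (n - s + ρ) * rep (z.2 - x.2))) = _
  rw [hGG.2.1 _ h1, hGG.2.1 _ h2]
  ring

/-- splitting of a double sum -/
theorem ptw_split (M : ℕ) (c d : ℕ → ℝ) (D : ℕ → ℝ) (O : ℕ → ℕ → ℝ)
    (hD : ∀ β, D β = c β * d β) (hO : ∀ β₁ β₂, O β₁ β₂ = if β₁ = β₂ then 0 else c β₁ * d β₂) :
    ∑ β ∈ Finset.range M, D β + ∑ β₁ ∈ Finset.range M, ∑ β₂ ∈ Finset.range M, O β₁ β₂ =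
      (∑ β ∈ Finset.range M, c β) * ∑ β ∈ Finset.range M, d β := by
  rw [Finset.sum_mul_sum, ← Finset.sum_add_distrib]
  apply Finset.sum_congr rfl
  intro β hβ
  have e : ∀ β₂ ∈ Finset.range M, c β * d β₂ = (if β = β₂ then c β * d β₂ else 0) + O β β₂ := by
    intro β₂ _
    rw [hO]
    split_ifs with h
    · rw [add_zero]
    · rw [zero_add]
  rw [Finset.sum_congr rfl e, Finset.sum_add_distrib, Finset.sum_ite_eq, if_pos hβ, hD]

theorem st_PTW (hREP : ST_REP) (hGG : ST_GG) : ST_PTW := by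
  intro M n ρ s₀ sp sm G y x hρ hs₀ hs₀n hG hGn hsp hspn hsm hyx z
  have hs0n : s₀ ≤ n := by omega
  have hsmn : sm ≤ n := by omega
  constructor
  · intro hin
    have hi0 : Bx n ρ s₀ x z := hin s₀ (by simp)
    have hip : Bx n ρ sp x z := hin sp (by simp)
    have him : Bx n ρ sm x z := hin sm (by simp)
    have hiG : ∀ s ∈ G, Bx n ρ s x z := fun s hs => hin s (by simp [hs])
    obtain ⟨hY1, hY2⟩ := ptw_in hREP hs0n hi0
    set t1 := rep (z.1 - x.1) with ht1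
    set t2 := rep (z.2 - x.2) with ht2
    set h : ℝ := (1 / 2 : ℝ) ^ ρ with hh
    set a₁ := 2 ^ s₀ * rep (x.1 - y.1) with ha₁
    set a₂ := 2 ^ (n - s₀) * rep (x.2 - y.2) with ha₂
    set Y1 := (2 : ℝ) ^ (s₀ + ρ) * t1 with hY1d
    set Y2 := (2 : ℝ) ^ (n - s₀ + ρ) * t2 with hY2d
    have h2ρ : (2 : ℝ) ^ ρ * h = 1 := by
      rw [hh, ← mul_pow]; norm_num
    have hhY1 : h * Y1 = 2 ^ s₀ * t1 := by
      rw [hY1d, pow_add]
      calc h * (2 ^ s₀ * 2 ^ ρ * t1) = (2 ^ ρ * h) * (2 ^ s₀ * t1) := by ring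
        _ = _ := by rw [h2ρ, one_mul]
    have hhY2 : h * Y2 = 2 ^ (n - s₀) * t2 := by
      rw [hY2d, pow_add]
      calc h * (2 ^ (n - s₀) * 2 ^ ρ * t2) = (2 ^ ρ * h) * (2 ^ (n - s₀) * t2) := by ring
        _ = _ := by rw [h2ρ, one_mul]
    -- the spike
    have hrep : ∀ (k : ℕ) (u v w : UnitAddCircle), 3 ≤ k →
        |(2 : ℝ) ^ (k + ρ) * rep (u - v)| ≤ 1 → ‖v - w‖ ≤ (2 : ℝ) ^ (-((k : ℤ) - 1)) →
        rep (u - w) = rep (u - v) + rep (v - w) := by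
      intro k u v w hk h1 h2
      have e : u - w = (u - v) + (v - w) := by abel
      rw [e]
      apply hREP.2.2.2.2
      rw [ptw_z2, ← hREP.2.1] at h2
      have h3 : |rep (u - v)| ≤ ((2 : ℝ) ^ (k + ρ))⁻¹ := by
        rw [abs_mul, abs_of_pos (show (0 : ℝ) < 2 ^ (k + ρ) by positivity)] at h1
        rw [← one_div, le_div_iff₀ (by positivity)]
        linarith
      have h4 : ((2 : ℝ) ^ (k + ρ))⁻¹ ≤ 1 / 64 := by
        have : (2 : ℝ) ^ 6 ≤ 2 ^ (k + ρ) := pow_le_pow_right₀ (by norm_num) (by omega)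
        rw [← one_div]
        apply one_div_le_one_div_of_le (by norm_num)
        norm_num at this ⊢
        exact this
      have h5 : ((2 : ℝ) ^ k)⁻¹ ≤ 1 / 8 := by
        have : (2 : ℝ) ^ 3 ≤ 2 ^ k := pow_le_pow_right₀ (by norm_num) hk
        rw [← one_div]
        apply one_div_le_one_div_of_le (by norm_num)
        norm_num at this ⊢
        exact this
      calc |rep (u - v) + rep (v - w)| ≤ |rep (u - v)| + |rep (v - w)| := abs_add_le _ _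
        _ < 1 / 2 := by linarith
    have hyx1 : ‖x.1 - y.1‖ ≤ (2 : ℝ) ^ (-((s₀ : ℤ) - 1)) := by
      have := hyx.1
      rwa [← sub_eq_add_neg] at this
    have hyx2 : ‖x.2 - y.2‖ ≤ (2 : ℝ) ^ (-(((n - s₀ : ℕ) : ℤ) - 1)) := by
      have := hyx.2
      rw [← sub_eq_add_neg] at this
      rw [Nat.cast_sub hs0n]
      exact this
    have hspk : spk n s₀ y z = gg (a₁ + h * Y1) * gg (a₂ + h * Y2) := by
      unfold spk bmp
      rw [hrep s₀ z.1 x.1 y.1 hs₀ hY1 hyx1, hrep (n - s₀) z.2 x.2 y.2 (by omega) hY2 hyx2]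
      rw [hhY1, hhY2, ha₁, ha₂, ← ht1, ← ht2]
      congr 2 <;> ring
    -- the coefficients
    set c : ℕ → ℝ := fun β => iteratedDeriv β gg a₁ / (β.factorial : ℝ) * (h * Y1) ^ β with hc
    set d : ℕ → ℝ := fun β => iteratedDeriv β gg a₂ / (β.factorial : ℝ) * (h * Y2) ^ β with hd
    have hT1 : tay M a₁ h Y1 = ∑ β ∈ Finset.range M, c β := rfl
    have hT2 : tay M a₂ h Y2 = ∑ β ∈ Finset.range M, d β := rfl
    have hcard : (G.card : ℝ) ≠ 0 := by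
      have := Finset.card_pos.2 hG
      positivity
    have hY12 : ∀ s, s ≤ n → (2 : ℝ) ^ (s + ρ) * t1 * ((2 : ℝ) ^ (n - s + ρ) * t2) = Y1 * Y2 := by
      intro s hs
      have e1 : (2 : ℝ) ^ (s + ρ) * 2 ^ (n - s + ρ) = 2 ^ (n + 2 * ρ) := by
        rw [← pow_add]; congr 1; omega
      have e2 : (2 : ℝ) ^ (s₀ + ρ) * 2 ^ (n - s₀ + ρ) = 2 ^ (n + 2 * ρ) := by
        rw [← pow_add]; congr 1; omega
      calc (2 : ℝ) ^ (s + ρ) * t1 * ((2 : ℝ) ^ (n - s + ρ) * t2)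
          = ((2 : ℝ) ^ (s + ρ) * 2 ^ (n - s + ρ)) * (t1 * t2) := by ring
        _ = ((2 : ℝ) ^ (s₀ + ρ) * 2 ^ (n - s₀ + ρ)) * (t1 * t2) := by rw [e1, e2]
        _ = Y1 * Y2 := by rw [hY1d, hY2d]; ring
    have hP12 := ptw_split M c d
      (fun β => iteratedDeriv β gg a₁ / (β.factorial : ℝ) *
        (iteratedDeriv β gg a₂ / (β.factorial : ℝ)) * ((1 / 2 : ℝ) ^ ρ) ^ (2 * β) *
        ((G.card : ℝ)⁻¹ * ∑ s ∈ G, tb (fun y => y ^ β * gg y) (fun y => y ^ β * gg y) n ρ s x z))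
      (fun β₁ β₂ => offd n ρ s₀ sp sm a₁ a₂ β₁ β₂ x z)
      (by
        intro β
        have e : ∀ s ∈ G, tb (fun y => y ^ β * gg y) (fun y => y ^ β * gg y) n ρ s x z =
            (Y1 * Y2) ^ β := by
          intro s hs
          rw [ptw_tb1 hREP hGG (hGn s hs) (hiG s hs), ← mul_pow, ← ht1, ← ht2, hY12 s (hGn s hs)]
        show _ = c β * d β
        rw [Finset.sum_congr rfl e, Finset.sum_const, nsmul_eq_mul, ← mul_assoc (G.card : ℝ)⁻¹,
          inv_mul_cancel₀ hcard, one_mul, ← hh, hc, hd]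
        simp only [mul_pow]
        ring)
      (by
        intro β₁ β₂
        unfold offd
        by_cases h1 : β₂ < β₁
        · rw [if_pos h1, if_neg (by omega : ¬ β₁ = β₂), ptw_tb1 hREP hGG hspn hip, ← ht1, ← ht2,
            ← hh]
          have e1 : (2 : ℝ) ^ (sp + ρ) * t1 = 2 ^ (sp - s₀) * Y1 := by
            rw [hY1d, ← mul_assoc, ← pow_add]; congr 2; omega
          have e2 : Y2 = (2 : ℝ) ^ (sp - s₀) * ((2 : ℝ) ^ (n - sp + ρ) * t2) := by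
            rw [hY2d, ← mul_assoc, ← pow_add]; congr 2; omega
          rw [e1]
          set q : ℝ := (2 : ℝ) ^ (sp - s₀) with hq
          set Z := (2 : ℝ) ^ (n - sp + ρ) * t2 with hZ
          have e3 : (1 / 2 : ℝ) ^ ((sp - s₀) * (β₁ - β₂)) * q ^ (β₁ - β₂) = 1 := by
            rw [hq, pow_mul, ← mul_pow, ← mul_pow]; norm_num
          obtain ⟨j, hj⟩ := Nat.exists_eq_add_of_lt h1
          have hj' : β₁ - β₂ = j + 1 := by omega
          show _ = c β₁ * d β₂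
          rw [hc, hd]
          simp only
          rw [e2]
          rw [hj'] at e3 ⊢
          have hβ : β₁ = β₂ + (j + 1) := by omega
          calc iteratedDeriv β₁ gg a₁ / (β₁.factorial : ℝ) *
                (iteratedDeriv β₂ gg a₂ / (β₂.factorial : ℝ)) * h ^ (β₁ + β₂) *
                (1 / 2) ^ ((sp - s₀) * (j + 1)) * ((q * Y1) ^ β₁ * Z ^ β₂)
              = iteratedDeriv β₁ gg a₁ / (β₁.factorial : ℝ) *
                (iteratedDeriv β₂ gg a₂ / (β₂.factorial : ℝ)) * h ^ (β₁ + β₂) *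
                (((1 / 2) ^ ((sp - s₀) * (j + 1)) * q ^ (j + 1)) * (q ^ β₂ * Y1 ^ β₁ * Z ^ β₂)) := by
                rw [mul_pow q Y1, show q ^ β₁ = q ^ β₂ * q ^ (j + 1) by rw [← pow_add, ← hβ]]
                ring
            _ = _ := by
                rw [e3, one_mul, pow_add, mul_pow h Y1, mul_pow h (q * Z), mul_pow q Z]
                ring
        · rw [if_neg h1]
          by_cases h2 : β₁ < β₂
          · rw [if_pos h2, if_neg (by omega : ¬ β₁ = β₂), ptw_tb1 hREP hGG hsmn him, ← ht1, ← ht2,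
              ← hh]
            have e1 : (2 : ℝ) ^ (n - sm + ρ) * t2 = 2 ^ (s₀ - sm) * Y2 := by
              rw [hY2d, ← mul_assoc, ← pow_add]; congr 2; omega
            have e2 : Y1 = (2 : ℝ) ^ (s₀ - sm) * ((2 : ℝ) ^ (sm + ρ) * t1) := by
              rw [hY1d, ← mul_assoc, ← pow_add]; congr 2; omega
            rw [e1]
            set q : ℝ := (2 : ℝ) ^ (s₀ - sm) with hq
            set Z := (2 : ℝ) ^ (sm + ρ) * t1 with hZ
            have e3 : (1 / 2 : ℝ) ^ ((s₀ - sm) * (β₂ - β₁)) * q ^ (β₂ - β₁) = 1 := by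
              rw [hq, pow_mul, ← mul_pow, ← mul_pow]; norm_num
            obtain ⟨j, hj⟩ := Nat.exists_eq_add_of_lt h2
            have hj' : β₂ - β₁ = j + 1 := by omega
            show _ = c β₁ * d β₂
            rw [hc, hd]
            simp only
            rw [e2]
            rw [hj'] at e3 ⊢
            have hβ : β₂ = β₁ + (j + 1) := by omega
            calc iteratedDeriv β₁ gg a₁ / (β₁.factorial : ℝ) *
                  (iteratedDeriv β₂ gg a₂ / (β₂.factorial : ℝ)) * h ^ (β₁ + β₂) *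
                  (1 / 2) ^ ((s₀ - sm) * (j + 1)) * (Z ^ β₁ * (q * Y2) ^ β₂)
                = iteratedDeriv β₁ gg a₁ / (β₁.factorial : ℝ) *
                  (iteratedDeriv β₂ gg a₂ / (β₂.factorial : ℝ)) * h ^ (β₁ + β₂) *
                  (((1 / 2) ^ ((s₀ - sm) * (j + 1)) * q ^ (j + 1)) *
                    (q ^ β₁ * Y2 ^ β₂ * Z ^ β₁)) := by
                  rw [mul_pow q Y2, show q ^ β₂ = q ^ β₁ * q ^ (j + 1) by rw [← pow_add, ← hβ]]
                  ring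
              _ = _ := by
                  rw [e3, one_mul, pow_add, mul_pow h Y2, mul_pow h (q * Z), mul_pow q Z]
                  ring
          · rw [if_neg h2, if_pos (by omega : β₁ = β₂)])
    have hP3 := ptw_tb1 hREP hGG hs0n hi0 (fun y => gg (a₁ + (1 / 2) ^ ρ * y) -
      tay M a₁ ((1 / 2) ^ ρ) y) (fun y => gg (a₂ + (1 / 2) ^ ρ * y))
    have hP4 := ptw_tb1 hREP hGG hs0n hi0 (fun y => tay M a₁ ((1 / 2) ^ ρ) y)
      (fun y => gg (a₂ + (1 / 2) ^ ρ * y) - tay M a₂ ((1 / 2) ^ ρ) y)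
    unfold hcor
    rw [hP12, hP3, hP4, hspk]
    simp only [← ht1, ← ht2, ← hh, ← hY1d, ← hY2d]
    rw [← hT1, ← hT2]
    ring
  · intro hout
    have hi0 : ¬ Bx n ((ρ : ℤ) - 1) s₀ x z := hout s₀ (by simp)
    have hip : ¬ Bx n ((ρ : ℤ) - 1) sp x z := hout sp (by simp)
    have him : ¬ Bx n ((ρ : ℤ) - 1) sm x z := hout sm (by simp)
    have hiG : ∀ s ∈ G, ¬ Bx n ((ρ : ℤ) - 1) s x z := fun s hs => hout s (by simp [hs])
    unfold hcor
    rw [ptw_tb0 hREP hGG hs0n hi0 (fun v => gg (2 ^ s₀ * rep (x.1 - y.1) + (1 / 2) ^ ρ * v) -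
      tay M (2 ^ s₀ * rep (x.1 - y.1)) ((1 / 2) ^ ρ) v)
      (fun y_1 => gg (2 ^ (n - s₀) * rep (x.2 - y.2) + (1 / 2) ^ ρ * y_1)),
      ptw_tb0 hREP hGG hs0n hi0 (fun y_1 => tay M (2 ^ s₀ * rep (x.1 - y.1)) ((1 / 2) ^ ρ) y_1)
      (fun y_1 => gg (2 ^ (n - s₀) * rep (x.2 - y.2) + (1 / 2) ^ ρ * y_1) -
        tay M (2 ^ (n - s₀) * rep (x.2 - y.2)) ((1 / 2) ^ ρ) y_1)]
    have hA : ∀ β ∈ Finset.range M, iteratedDeriv β gg (2 ^ s₀ * rep (x.1 - y.1)) /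
        (β.factorial : ℝ) * (iteratedDeriv β gg (2 ^ (n - s₀) * rep (x.2 - y.2)) /
        (β.factorial : ℝ)) * ((1 / 2 : ℝ) ^ ρ) ^ (2 * β) * ((G.card : ℝ)⁻¹ *
        ∑ s ∈ G, tb (fun y => y ^ β * gg y) (fun y => y ^ β * gg y) n ρ s x z) = 0 := by
      intro β _
      rw [Finset.sum_eq_zero fun s hs => ptw_tb0 hREP hGG (hGn s hs) (hiG s hs) (fun y => y ^ β)
        (fun y => y ^ β)]
      ring
    have hB : ∀ β₁ ∈ Finset.range M, ∑ β₂ ∈ Finset.range M, offd n ρ s₀ sp sm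
        (2 ^ s₀ * rep (x.1 - y.1)) (2 ^ (n - s₀) * rep (x.2 - y.2)) β₁ β₂ x z = 0 := by
      intro β₁ _
      apply Finset.sum_eq_zero
      intro β₂ _
      unfold offd
      split_ifs
      · rw [ptw_tb0 hREP hGG hspn hip (fun y => y ^ β₁) (fun y => y ^ β₂)]; ring
      · rw [ptw_tb0 hREP hGG hsmn him (fun y => y ^ β₁) (fun y => y ^ β₂)]; ring
      · rfl
    rw [Finset.sum_eq_zero hA, Finset.sum_eq_zero hB]
    ring

end Pool.Agent.Helper37.SN
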