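import Pool.Agent.Helper37.SN.Stmts

set_option autoImplicit false

namespace Pool.Agent.Helper37.SN

open MeasureTheory Finset
open scoped ENNReal

theorem spk_haar1 (x : UnitAddCircle) (ε : ℝ) :
    haar1 (Metric.closedBall x ε) = ENNReal.ofReal (min 1 (2 * ε)) := by
  have h := AddCircle.volume_closedBall (T := 1) (x := x) ε
  rw [AddCircle.volume_eq_smul_haarAddCircle, ENNReal.ofReal_one, one_smul] at h
  exact h

instance spk_inst : IsProbabilityMeasure haar1 := by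
  unfold haar1; infer_instance

/-- the box -/
noncomputable def spkBox {e : ℕ} (y : P2) (r1 r2 : ℝ) : Fin (e + 2) → Set UnitAddCircle :=
  Fin.cons (Metric.closedBall y.1 r1) (Fin.cons (Metric.closedBall y.2 r2) fun _ => Set.univ)

theorem spk_meas {e : ℕ} (y : P2) (r1 r2 : ℝ) :
    haar (e + 2) (Set.pi Set.univ (spkBox y r1 r2)) =
      ENNReal.ofReal (min 1 (2 * r1)) * ENNReal.ofReal (min 1 (2 * r2)) := by
  unfold haar
  rw [Measure.pi_pi, Fin.prod_univ_succ, Fin.prod_univ_succ]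
  unfold spkBox
  simp only [Fin.cons_zero, Fin.cons_succ, measure_univ, Finset.prod_const_one, mul_one,
    spk_haar1]

theorem st_SPK (hGG : ST_GG) (hREP : ST_REP) : ST_SPK := by
  intro q e n s y hq hs hsn
  set r1 : ℝ := ((2 : ℝ) ^ s)⁻¹ with hr1
  set r2 : ℝ := ((2 : ℝ) ^ (n - s))⁻¹ with hr2
  set S : Set (TT (e + 2)) := Set.pi Set.univ (spkBox y r1 r2) with hS
  have hSm : MeasurableSet S := by
    apply MeasurableSet.univ_pi
    intro i
    refine Fin.cases ?_ (fun i => Fin.cases ?_ (fun i => ?_) i) i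
    · exact Metric.isClosed_closedBall.measurableSet
    · exact Metric.isClosed_closedBall.measurableSet
    · exact MeasurableSet.univ
  have hS1 : ∀ x ∈ S, spk n s y (pr x) = 1 := by
    intro x hx
    have h0 : x 0 ∈ Metric.closedBall y.1 r1 := hx 0 (Set.mem_univ _)
    have h1 : x 1 ∈ Metric.closedBall y.2 r2 := hx 1 (Set.mem_univ _)
    rw [Metric.mem_closedBall, dist_eq_norm, ← hREP.2.1] at h0 h1
    have key : ∀ (k : ℕ) (t : ℝ), |t| ≤ ((2 : ℝ) ^ k)⁻¹ → |(2 : ℝ) ^ k * t| ≤ 1 := by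
      intro k t ht
      rw [abs_mul, abs_of_pos (show (0 : ℝ) < 2 ^ k by positivity)]
      calc (2 : ℝ) ^ k * |t| ≤ 2 ^ k * (2 ^ k)⁻¹ := by gcongr
        _ = 1 := mul_inv_cancel₀ (by positivity)
    show gg ((2 : ℝ) ^ s * rep (x 0 - y.1)) * gg ((2 : ℝ) ^ (n - s) * rep (x 1 - y.2)) = 1
    rw [hGG.2.1 _ (key s _ h0), hGG.2.1 _ (key (n - s) _ h1), one_mul]
  have hmono : eLpNorm (S.indicator fun _ => (1 : ℝ)) (ENNReal.ofReal q) (haar (e + 2)) ≤
      eLpNorm (fun x : TT (e + 2) => spk n s y (pr x)) (ENNReal.ofReal q) (haar (e + 2)) := by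
    apply eLpNorm_mono
    intro x
    by_cases hx : x ∈ S
    · rw [Set.indicator_of_mem hx, hS1 x hx]
    · rw [Set.indicator_of_notMem hx, norm_zero]
      exact norm_nonneg _
  refine le_trans ?_ hmono
  have hq0 : 0 < q := by linarith
  rw [eLpNorm_indicator_const hSm (by simpa using hq0) ENNReal.ofReal_ne_top,
    ENNReal.toReal_ofReal hq0.le, enorm_one, one_mul, hS, spk_meas]
  have hm1 : min 1 (2 * r1) = 2 * r1 := by
    apply min_eq_right
    have : (2 : ℝ) ^ 3 ≤ 2 ^ s := pow_le_pow_right₀ (by norm_num) hs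
    rw [hr1, ← div_eq_mul_inv, div_le_one (by positivity)]
    linarith
  have hm2 : min 1 (2 * r2) = 2 * r2 := by
    apply min_eq_right
    have : (2 : ℝ) ^ 3 ≤ 2 ^ (n - s) := pow_le_pow_right₀ (by norm_num) (by omega)
    rw [hr2, ← div_eq_mul_inv, div_le_one (by positivity)]
    linarith
  rw [hm1, hm2, ← ENNReal.ofReal_mul (by positivity)]
  have hprod : (2 : ℝ) ^ (-(n : ℝ)) ≤ 2 * r1 * (2 * r2) := by
    have e1 : r1 * r2 = (2 : ℝ) ^ (-(n : ℝ)) := by
      rw [hr1, hr2, ← mul_inv, ← pow_add, Real.rpow_neg (by norm_num), Real.rpow_natCast]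
      congr 2
      omega
    have e2 : 0 < (2 : ℝ) ^ (-(n : ℝ)) := by positivity
    calc (2 : ℝ) ^ (-(n : ℝ)) ≤ 4 * (2 : ℝ) ^ (-(n : ℝ)) := by linarith
      _ = 2 * r1 * (2 * r2) := by rw [← e1]; ring
  calc ENNReal.ofReal ((2 : ℝ) ^ (-((n : ℝ) / q)))
      = ENNReal.ofReal (((2 : ℝ) ^ (-(n : ℝ))) ^ (1 / q)) := by
        rw [← Real.rpow_mul (by norm_num)]
        congr 2
        field_simp
    _ = (ENNReal.ofReal ((2 : ℝ) ^ (-(n : ℝ)))) ^ (1 / q) := by
        rw [ENNReal.ofReal_rpow_of_pos (by positivity)]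
    _ ≤ (ENNReal.ofReal (2 * r1 * (2 * r2))) ^ (1 / q) := by
        apply ENNReal.rpow_le_rpow (ENNReal.ofReal_le_ofReal hprod) (by positivity)

end Pool.Agent.Helper37.SN
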